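import Pool.Agent.Y160.SQ.TDefs

/-!
# The Tate-Shafarevich group of the Jacobian of `y ^ ℓ = f(x)`: definitions
-/

set_option autoImplicit false
set_option linter.all false

open Polynomial IsDedekindDomain
open scoped Classical

namespace Pool.Agent.Y160.SH

open Pool.Agent.TH115.GD (incl rs ak Sep Comp CompInf IsTower)
open Pool.Agent.Y160.SQ (Jac jm IsCoc LocTriv)

/-- The `p`-primary part of the Tate-Shafarevich group of the Jacobian `J` of `y ^ ℓ = f(x)` over the
field of fractions `K` of `A` is zero, even with respect to the maximal ideals of `A` only: let `c` be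
a continuous cocycle of `Gal(Sep K / K)` with values in `J(Sep K)` such that `p ^ n c` is a coboundary
for some `n`, and such that for every maximal ideal `v` of `A` the restriction of `c` to the Galois
group of the completion of `K` at `v` is a coboundary. Then `c` is a coboundary. -/
def ShaTriv (p ℓ : ℕ) (A : Type) [CommRing A] [IsDedekindDomain A] {K : Type} [Field K]
    [Algebra A K] [IsFractionRing A K] (f : K[X]) : Prop :=
  ∀ c : (Sep K ≃ₐ[K] Sep K) → Jac ℓ f (Sep K), IsCoc ℓ f c →
    (∃ (n : ℕ) (P : Jac ℓ f (Sep K)), ∀ σ, p ^ n • c σ = jm ℓ f (rs K σ) P - P) →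
    (∀ v : HeightOneSpectrum A, LocTriv ℓ f (Comp A K v) (Sep (Comp A K v)) c) →
    ∃ P : Jac ℓ f (Sep K), ∀ σ, c σ = jm ℓ f (rs K σ) P - P

end Pool.Agent.Y160.SH
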