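import Pool.Agent.Y160.SH.CritH
import Pool.Agent.TH115.TC.Crit

/-!
# The criterion for the Tate-Shafarevich group of the Jacobian of `y ^ ℓ = f(x, t)`, `ℓ` a power of
`p`, in terms of the curve `f = 0`
-/

set_option autoImplicit false
set_option linter.all false

open Polynomial IsDedekindDomain WithZero
open scoped nonZeroDivisors Classical

namespace Pool.Agent.Y160.SH

open Pool.Agent.Y160.SQ

open Pool.Agent.TH115.GD (incl rs ak Sep Comp CompInf IsTower rs_mul Preserves exists_conj lift_fix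
  cont_rs exists_restrict exists_aut exists_kappa exists_compl_map sepKΩ preserves exists_over
  val_unram poly_integral)
open Pool.Agent.Y160.SE (SmoothC IsPw)
open Pool.Agent.Y160.RK (ptCl dvI_cl jm_fix StInj jm_inj)

section critN

variable {p m ℓ : ℕ} {k k' K F N : Type} [Field k] [Field k'] [Algebra k k'] [Field K] [Algebra k[X] K]
  [IsFractionRing k[X] K]
  [Field F] [Algebra k'[X] F] [IsFractionRing k'[X] F] [Algebra K F]
  [Field N] [Algebra K N] [Algebra k[X] N] [IsScalarTower k[X] K N]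
  {R : Type} [CommRing R] [IsDedekindDomain R] [Algebra R N] [IsFractionRing R N]
  [Algebra k[X] R] [IsScalarTower k[X] R N] [Algebra.IsIntegral k[X] R]

/-- The Kummer generator of a locally trivial class killed by `1 - σ`, and its valuations. -/
theorem valN [Algebra N (Sep F)] [IsScalarTower K N (Sep F)] (hp : p.Prime) (hpm : ℓ = p ^ m)
    (H : Hyps) (HL : LHyps)
    (hLoc : StShaLoc) (hT : IsTower k k' K F) {f : k[X][X]} {ζ : K}
    (hg : Good ℓ ζ (f.map (algebraMap k[X] K))) (hfm : f.Monic) (hℓk : (ℓ : k') ≠ 0)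
    (hS : SmoothC f)
    {θ : N} (hθ : aeval θ (f.map (algebraMap k[X] K)) = 0)
    (hNtop : IntermediateField.adjoin K {θ} = ⊤)
    (c : (Sep K ≃ₐ[K] Sep K) → Jac ℓ (f.map (algebraMap k[X] K)) (Sep K)) (hc : IsCoc ℓ _ c)
    (hct : ∀ σ, Tor hg (c σ))
    (hcv : ∀ v : HeightOneSpectrum k[X], LocTriv ℓ (f.map (algebraMap k[X] K)) (Comp k[X] K v)
      (Sep (Comp k[X] K v)) c) (j : Sep K ≃ₐ[K] Sep F) :
    ∃ (t : Sep F) (z : N), t ≠ 0 ∧ z ≠ 0 ∧ t ^ ℓ = algebraMap N (Sep F) z ∧
      (∀ τ : Sep F ≃ₐ[K] Sep F, τ (algebraMap N (Sep F) θ) = algebraMap N (Sep F) θ →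
        τ t = chi hg (algebraMap N (Sep F) θ) (tr j c τ) * t) ∧
      ∀ v : HeightOneSpectrum R, IsPw ℓ (v.valuation N z) := by
  haveI := hT.sep
  haveI := hT.fracK
  haveI : IsGalois k k' := inferInstance
  have hKF := hT.map
  haveI : IsSepClosure K (Sep F) := sepKΩ hKF
  haveI : Algebra.IsSeparable K (Sep F) := IsSepClosure.separable
  haveI : IsGalois K (Sep F) := inferInstance
  set a : Sep F := algebraMap N (Sep F) θ with ha
  have haR : Rt (f.map (algebraMap k[X] K)) a := by
    have h1 : aeval a (f.map (algebraMap k[X] K)) = 0 := by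
      rw [ha, aeval_algebraMap_apply, hθ, map_zero]
    exact h1
  have hKN : ∀ x : K, algebraMap N (Sep F) (algebraMap K N x) =
      algebraMap F (Sep F) (algebraMap K F x) := fun x => by
    rw [← IsScalarTower.algebraMap_apply K N (Sep F), ← IsScalarTower.algebraMap_apply K F (Sep F)]
  -- the field `M`
  let S : IntermediateField F (Sep F) := IntermediateField.adjoin F {a}
  haveI : FiniteDimensional F S := IntermediateField.adjoin.finiteDimensional
    (Algebra.IsIntegral.isIntegral (R := F) a)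
  haveI : Algebra.IsSeparable F S := inferInstance
  have hmem : ∀ x : N, algebraMap N (Sep F) x ∈ S := by
    intro x
    have hx : x ∈ (⊤ : IntermediateField K N) := trivial
    rw [← hNtop] at hx
    refine IntermediateField.adjoin_induction K
      (p := fun x _ => algebraMap N (Sep F) x ∈ S) ?_ ?_ ?_ ?_ ?_ hx
    · intro y hy
      rw [Set.mem_singleton_iff] at hy
      subst hy
      exact IntermediateField.mem_adjoin_simple_self F a
    · intro y
      rw [hKN]
      exact S.algebraMap_mem _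
    · intro x y _ _ hx hy
      rw [map_add]; exact add_mem hx hy
    · intro x _ hx
      rw [map_inv₀]; exact inv_mem hx
    · intro x y _ _ hx hy
      rw [map_mul]; exact mul_mem hx hy
  let M : Type := S
  letI : Algebra N M := ((algebraMap N (Sep F)).codRestrict S hmem).toAlgebra
  haveI : IsScalarTower N M (Sep F) := IsScalarTower.of_algebraMap_eq fun x => rfl
  haveI : IsScalarTower K F M := IsScalarTower.of_algebraMap_eq fun x => Subtype.ext
    (IsScalarTower.algebraMap_apply K F (Sep F) x)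
  letI : Algebra k N := ((algebraMap k[X] N).comp C).toAlgebra
  letI : Algebra k' M := ((algebraMap F M).comp ((algebraMap k'[X] F).comp C)).toAlgebra
  letI : Algebra k M := ((algebraMap k' M).comp (algebraMap k k')).toAlgebra
  haveI : IsScalarTower k k' M := IsScalarTower.of_algebraMap_eq fun x => rfl
  have hkX : ∀ p : k[X], algebraMap N (Sep F) (algebraMap k[X] N p) =
      algebraMap F (Sep F) (algebraMap k'[X] F (p.map (algebraMap k k'))) := by
    intro p
    rw [IsScalarTower.algebraMap_apply k[X] K N, hKN, hKF]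
  have hkN : ∀ x : k, algebraMap N (Sep F) (algebraMap k N x) =
      algebraMap F (Sep F) (algebraMap k'[X] F (C (algebraMap k k' x))) := by
    intro x
    have := hkX (C x)
    rwa [map_C] at this
  haveI : IsScalarTower k N M := IsScalarTower.of_algebraMap_eq fun x => Subtype.ext (hkN x).symm
  letI : Algebra k'[X] M := ((algebraMap F M).comp (algebraMap k'[X] F)).toAlgebra
  haveI : IsScalarTower k'[X] F M := IsScalarTower.of_algebraMap_eq fun x => rfl
  -- the ring `R`
  haveI : FiniteDimensional K N := by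
    have hint : IsIntegral K θ := by
      have h1 : IsIntegral K a := Algebra.IsIntegral.isIntegral a
      exact (isIntegral_algebraMap_iff (algebraMap N (Sep F)).injective).1 h1
    haveI := IntermediateField.adjoin.finiteDimensional hint
    rw [hNtop] at this
    exact (IntermediateField.topEquiv (F := K) (E := N)).toLinearEquiv.finiteDimensional
  haveI : Algebra.IsSeparable K N := Algebra.isSeparable_tower_bot_of_isSeparable K N (Sep F)
  haveI : IsDedekindDomain (integralClosure k'[X] M) := integralClosure.isDedekindDomain k'[X] F M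
  haveI : IsFractionRing (integralClosure k'[X] M) M :=
    integralClosure.isFractionRing_of_finite_extension F M
  letI : Algebra R M := ((algebraMap N M).comp (algebraMap R N)).toAlgebra
  haveI : IsScalarTower R N M := IsScalarTower.of_algebraMap_eq fun x => rfl
  have hRB : ∀ r : R, algebraMap N M (algebraMap R N r) ∈ integralClosure k'[X] M := by
    intro r
    have h1 : IsIntegral k[X] (algebraMap R N r) :=
      (Algebra.IsIntegral.isIntegral (R := k[X]) r).algebraMap
    exact IsIntegral.map_of_comp_eq (mapRingHom (algebraMap k k')) (algebraMap N M) (by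
      ext p
      · exact (hkX (C p)).symm
      · exact (hkX X).symm) h1
  letI : Algebra R (integralClosure k'[X] M) :=
    (((algebraMap N M).comp (algebraMap R N)).codRestrict
      (integralClosure k'[X] M) hRB).toAlgebra
  haveI : IsScalarTower R (integralClosure k'[X] M) M :=
    IsScalarTower.of_algebraMap_eq fun x => rfl
  letI : Algebra k' (integralClosure k'[X] M) :=
    ((algebraMap k'[X] (integralClosure k'[X] M)).comp C).toAlgebra
  haveI : IsScalarTower k' (integralClosure k'[X] M) M :=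
    IsScalarTower.of_algebraMap_eq fun x => rfl
  haveI : Algebra.IsIntegral R (integralClosure k'[X] M) := by
    have h1 : (mapRingHom (algebraMap k k')).IsIntegral := poly_integral
    have h3 : (algebraMap k'[X] (integralClosure k'[X] M)).IsIntegral := fun x =>
      Algebra.IsIntegral.isIntegral (R := k'[X]) x
    have h4 := RingHom.IsIntegral.trans _ _ h1 h3
    have h5 : (algebraMap k'[X] (integralClosure k'[X] M)).comp (mapRingHom (algebraMap k k')) =
        (algebraMap R (integralClosure k'[X] M)).comp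
          (algebraMap k[X] R) := by
      apply RingHom.ext
      intro p
      apply Subtype.ext
      apply Subtype.ext
      show algebraMap F (Sep F) (algebraMap k'[X] F (p.map (algebraMap k k'))) =
        algebraMap N (Sep F) (algebraMap R N (algebraMap k[X] R p))
      rw [← IsScalarTower.algebraMap_apply k[X] R N]
      exact (hkX p).symm
    rw [h5] at h4
    exact ⟨RingHom.IsIntegral.tower_top _ _ h4⟩
  haveI : Module.IsTorsionFree R (integralClosure k'[X] M) := by
    rw [Module.isTorsionFree_iff_algebraMap_injective]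
    intro x y h
    have h1 := congrArg (algebraMap (integralClosure k'[X] M) M) h
    rw [← IsScalarTower.algebraMap_apply R (integralClosure k'[X] M) M,
      ← IsScalarTower.algebraMap_apply R (integralClosure k'[X] M) M] at h1
    exact IsFractionRing.injective R N ((algebraMap N M).injective h1)
  haveI : Module.IsTorsionFree k'[X] (integralClosure k'[X] M) := by
    rw [Module.isTorsionFree_iff_algebraMap_injective]
    intro x y h
    have h1 := congrArg (algebraMap (integralClosure k'[X] M) M) h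
    apply IsFractionRing.injective k'[X] F
    exact (algebraMap F M).injective h1
  -- `M` is generated by the constants
  have htop : IntermediateField.adjoin N (Set.range (algebraMap k' M)) = ⊤ := by
    set T : IntermediateField N M := IntermediateField.adjoin N (Set.range (algebraMap k' M)) with hT'
    have hpoly : ∀ p : k'[X], algebraMap F M (algebraMap k'[X] F p) ∈ T := by
      intro p
      induction p using Polynomial.induction_on' with
      | add p q hp hq => rw [map_add, map_add]; exact add_mem hp hq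
      | monomial n c =>
        rw [← C_mul_X_pow_eq_monomial, map_mul, map_mul, map_pow, map_pow]
        refine mul_mem (IntermediateField.subset_adjoin N _ ⟨c, rfl⟩) (pow_mem ?_ n)
        have h1 : algebraMap F M (algebraMap k'[X] F X) = algebraMap N M (algebraMap k[X] N X) := by
          apply Subtype.ext
          have := hkX X
          rw [map_X] at this
          exact this.symm
        rw [h1]
        exact T.algebraMap_mem _
    have hF : ∀ x : F, algebraMap F M x ∈ T := by
      intro x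
      obtain ⟨n, d, hd, rfl⟩ := IsFractionRing.div_surjective (A := k'[X]) x
      rw [map_div₀]
      exact div_mem (hpoly n) (hpoly d)
    rw [eq_top_iff]
    rintro ⟨x, hx⟩ -
    refine IntermediateField.adjoin_induction F
      (p := fun x hx => (⟨x, hx⟩ : M) ∈ T) ?_ ?_ ?_ ?_ ?_ hx
    · intro y hy
      rw [Set.mem_singleton_iff] at hy
      subst hy
      exact T.algebraMap_mem θ
    · intro y
      exact hF y
    · intro x y _ _ hx hy
      exact add_mem hx hy
    · intro x _ hx
      exact inv_mem hx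
    · intro x y _ _ hx hy
      exact mul_mem hx hy
  exact valM (M := M) (R := R) (integralClosure k'[X] M) hp hpm H HL hLoc hT hg hfm hℓk hS haR rfl
    hNtop htop c hc hct hcv j

end critN

section two

variable {p m ℓ : ℕ} {k k' K F N : Type} [Field k] [Field k'] [Algebra k k'] [Field K] [Algebra k[X] K]
  [IsFractionRing k[X] K]
  [Field F] [Algebra k'[X] F] [IsFractionRing k'[X] F] [Algebra K F]
  [Field N] [Algebra K N] [Algebra k[X] N] [IsScalarTower k[X] K N]
  {R : Type} [CommRing R] [IsDedekindDomain R] [Algebra R N] [IsFractionRing R N]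
  [Algebra k[X] R] [IsScalarTower k[X] R N] [Algebra.IsIntegral k[X] R]

/-- The criterion with a fixed embedding of `N` in the separable closure. -/
theorem shaN [Algebra N (Sep F)] [IsScalarTower K N (Sep F)] (hp : p.Prime) (hpm : ℓ = p ^ m)
    (H : Hyps) (HL : LHyps)
    (hLoc : StShaLoc) (hT : IsTower k k' K F) {f : k[X][X]} {ζ : K}
    (hg : Good ℓ ζ (f.map (algebraMap k[X] K))) (hfm : f.Monic) (hℓk : (ℓ : k') ≠ 0)
    (hS : SmoothC f) (hirrK : Irreducible (f.map (algebraMap k[X] K)))
    {θ : N} (hθ : aeval θ (f.map (algebraMap k[X] K)) = 0)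
    (hNtop : IntermediateField.adjoin K {θ} = ⊤)
    (hpts : ∀ z : N, z ≠ 0 → (∀ v : HeightOneSpectrum R, IsPw ℓ (v.valuation N z)) →
      ∃ (u : k) (g : N) (S : Multiset K[X]), u ≠ 0 ∧ g ≠ 0 ∧
        (∀ b ∈ S, b.Monic ∧ ∃ c : K[X], b ∣ f.map (algebraMap k[X] K) - c ^ ℓ) ∧
        z = algebraMap k[X] N (C u) * g ^ ℓ * aeval θ S.prod) :
    ShaTriv p ℓ k[X] (f.map (algebraMap k[X] K)) := by
  haveI := hT.sep
  haveI : IsSepClosure K (Sep F) := sepKΩ hT.map
  haveI : Algebra.IsSeparable K (Sep F) := IsSepClosure.separable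
  haveI : IsGalois K (Sep F) := inferInstance
  obtain ⟨j⟩ : Nonempty (Sep K ≃ₐ[K] Sep F) := ⟨IsSepClosure.equiv K (Sep K) (Sep F)⟩
  refine sha_of_tor H hg hp hpm fun c hc hct hcv => ?_
  obtain ⟨t, z, ht, hz0, hz, hk, hev⟩ := valN (R := R) hp hpm H HL hLoc hT hg hfm hℓk hS hθ hNtop c hc
    hct hcv j
  obtain ⟨u, g0, S0, hu, hg0, hSp0, hze0⟩ := hpts z hz0 hev
  have haR : Rt (f.map (algebraMap k[X] K)) (algebraMap N (Sep F) θ) := by
    have h1 : aeval (algebraMap N (Sep F) θ) (f.map (algebraMap k[X] K)) = 0 := by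
      rw [aeval_algebraMap_apply, hθ, map_zero]
    exact h1
  have hmul := tr_mul j hc
  have hg2 : ∀ τ, Tor hg (tr j c τ) := fun τ => (hct _).map _
  rw [IsScalarTower.algebraMap_apply k[X] K N] at hze0
  obtain ⟨P, hP⟩ := torK H hg hirrK haR rfl hNtop hmul hg2 ht hz hk hz0 hu hg0 hSp0 hze0
  exact tr_cob j hP

/-- The generation of `J(K)` with a fixed embedding of `N` in the separable closure. -/
theorem genN [Algebra N (Sep F)] [IsScalarTower K N (Sep F)] (hp : p.Prime) (hpm : ℓ = p ^ m)
    (H : Hyps) (HL : LHyps) (hInj : StInj)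
    (hLoc : StShaLoc) (hT : IsTower k k' K F) {f : k[X][X]} {ζ : K}
    (hg : Good ℓ ζ (f.map (algebraMap k[X] K))) (hfm : f.Monic) (hℓk : (ℓ : k') ≠ 0)
    (hS : SmoothC f) (hirrK : Irreducible (f.map (algebraMap k[X] K)))
    {θ : N} (hθ : aeval θ (f.map (algebraMap k[X] K)) = 0)
    (hNtop : IntermediateField.adjoin K {θ} = ⊤) (PP : Set (K[X] × K[X]))
    (hPP : ∀ P ∈ PP, Irreducible P.1 ∧ P.1.Monic ∧ ¬ P.1 ∣ f.map (algebraMap k[X] K) ∧
      P.1 ∣ f.map (algebraMap k[X] K) - P.2 ^ ℓ)
    (hpts : ∀ z : N, z ≠ 0 → (∀ v : HeightOneSpectrum R, IsPw ℓ (v.valuation N z)) →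
      ∃ (u : k) (g : N) (S : Multiset (K[X] × K[X])), u ≠ 0 ∧ g ≠ 0 ∧ (∀ P ∈ S, P ∈ PP) ∧
        z = algebraMap k[X] N (C u) * g ^ ℓ * aeval θ (dvP S))
    (x : Jac ℓ (f.map (algebraMap k[X] K)) K) :
    ∃ (T : Multiset (K[X] × K[X])) (y : Jac ℓ (f.map (algebraMap k[X] K)) K), (∀ P ∈ T, P ∈ PP) ∧
      x = (T.map (ptCl ℓ (f.map (algebraMap k[X] K)))).sum + pe hg K (1 - X) y := by
  haveI := hT.sep
  haveI : IsSepClosure K (Sep F) := sepKΩ hT.map
  haveI : Algebra.IsSeparable K (Sep F) := IsSepClosure.separable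
  haveI : IsGalois K (Sep F) := inferInstance
  obtain ⟨j⟩ : Nonempty (Sep K ≃ₐ[K] Sep F) := ⟨IsSepClosure.equiv K (Sep K) (Sep F)⟩
  obtain ⟨r, hr⟩ := lam_surj H hg (jm ℓ (f.map (algebraMap k[X] K)) (incl K K (Sep K)) x)
  have hct : ∀ σ : Sep K ≃ₐ[K] Sep K, Tor hg (jm ℓ (f.map (algebraMap k[X] K)) (rs K σ) r - r) := by
    intro σ
    unfold Tor
    rw [map_sub, ← jm_pe, hr, jm_fix H hg, sub_self]
  have hcv : ∀ v : HeightOneSpectrum k[X], LocTriv ℓ (f.map (algebraMap k[X] K)) (Comp k[X] K v)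
      (Sep (Comp k[X] K v)) (fun σ : Sep K ≃ₐ[K] Sep K =>
        jm ℓ (f.map (algebraMap k[X] K)) (rs K σ) r - r) := by
    intro v
    let ι : Sep K →ₐ[K] Sep (Comp k[X] K v) := IsSepClosed.lift
    refine ⟨ι, jm ℓ _ (ι.restrictScalars K) r, fun τ σ hτσ => ?_⟩
    have h5 : (ι.restrictScalars K).comp (rs K σ) = (rs K τ).comp (ι.restrictScalars K) :=
      AlgHom.ext fun x => (hτσ x).symm
    rw [map_sub, jm_jm, h5, ← jm_jm]
  obtain ⟨t, z, ht, hz0, hz, hk, hev⟩ := valN (R := R) hp hpm H HL hLoc hT hg hfm hℓk hS hθ hNtop _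
    (cob_isCoc H hg r) hct hcv j
  obtain ⟨u, g0, S, hu, hg0, hSp0, hze0⟩ := hpts z hz0 hev
  have haR : Rt (f.map (algebraMap k[X] K)) (algebraMap N (Sep F) θ) := by
    have h1 : aeval (algebraMap N (Sep F) θ) (f.map (algebraMap k[X] K)) = 0 := by
      rw [aeval_algebraMap_apply, hθ, map_zero]
    exact h1
  have hmul := tr_mul j (cob_isCoc (F := K) H hg r)
  have hg2 : ∀ τ, Tor hg (tr j (fun σ : Sep K ≃ₐ[K] Sep K =>
      jm ℓ (f.map (algebraMap k[X] K)) (rs K σ) r - r) τ) := fun τ => (hct _).map _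
  rw [IsScalarTower.algebraMap_apply k[X] K N] at hze0
  obtain ⟨m', R0, R', hR0, hR', hP⟩ := torK2 H hg hirrK haR rfl hNtop hmul hg2 ht hz hk hz0 hu hg0
    (fun P hP => hPP P (hSp0 P hP)) hze0
  -- the fixed class
  obtain ⟨y, hy⟩ := fixed_class (K := K) (E := K) (Ω := Sep F) H hg
    (jm ℓ (f.map (algebraMap k[X] K)) (j : Sep K →ₐ[K] Sep F) r - (R0 + R')) (fun τ => by
      have h1 := hP τ
      unfold tr at h1
      have e : (j : Sep K →ₐ[K] Sep F).comp (rs K (cj j τ)) = (rs K τ).comp (j : Sep K →ₐ[K] Sep F) := by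
        apply AlgHom.ext
        intro x
        show j (j.symm (τ (j x))) = τ (j x)
        rw [AlgEquiv.apply_symm_apply]
      have e2 : jm ℓ (f.map (algebraMap k[X] K)) (ak τ) (R0 + R') =
        jm ℓ (f.map (algebraMap k[X] K)) (rs K τ) (R0 + R') := rfl
      rw [map_sub, jm_jm, e, ← jm_jm, e2] at h1
      rw [map_sub, sub_eq_sub_iff_sub_eq_sub]
      exact h1)
  refine ⟨m' • S, y, fun P hP => hSp0 P (Multiset.mem_of_mem_nsmul hP), ?_⟩
  rw [← sub_eq_zero]
  refine jm_inj H hg hInj (Sep F) ?_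
  have h1 := congrArg (pe hg (Sep F) (1 - X)) hy
  have h2 : pe hg (Sep F) (1 - X) R' = 0 := hR'
  have e3 : (j : Sep K →ₐ[K] Sep F).comp (incl K K (Sep K)) = incl K K (Sep F) :=
    AlgHom.ext fun x => (j : Sep K →ₐ[K] Sep F).commutes x
  rw [map_sub (pe hg (Sep F) (1 - X)), map_add (pe hg (Sep F) (1 - X)), h2, add_zero, hR0, ← jm_pe,
    ← jm_pe, hr, jm_jm, e3] at h1
  rw [map_sub, map_add, h1]
  abel

end two

section main

variable {p m ℓ : ℕ} {k k' K F N : Type} [Field k] [Field k'] [Algebra k k'] [Field K]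
  [Algebra k[X] K] [IsFractionRing k[X] K] [Field F] [Algebra k'[X] F] [IsFractionRing k'[X] F]
  [Algebra K F] [Field N] [Algebra K N] [Algebra k[X] N] [IsScalarTower k[X] K N]

/-- The hypotheses in terms of the polynomial. -/
theorem good_of (hp : p.Prime) (hm : 0 < m) (hpm : ℓ = p ^ m) (hT : IsTower k k' K F) {ζ : k}
    (hζ : IsPrimitiveRoot ζ ℓ) {f : k[X][X]} (hfm : f.Monic) (hcop : p.Coprime f.natDegree)
    (hsep : (f.map (algebraMap k[X] K)).Separable) :
    Good ℓ (algebraMap k[X] K (C ζ)) (f.map (algebraMap k[X] K)) ∧ (ℓ : k') ≠ 0 := by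
  have hKinj : Function.Injective ((algebraMap k[X] K).comp C) :=
    (IsFractionRing.injective k[X] K).comp C_injective
  have hg : Good ℓ (algebraMap k[X] K (C ζ)) (f.map (algebraMap k[X] K)) :=
    ⟨hpm ▸ hp.isPrimePow.pow hm.ne', hζ.map_of_injective (f := (algebraMap k[X] K).comp C) hKinj,
      hfm.map _, hsep, by
      rw [hfm.natDegree_map, hpm]
      exact Nat.Coprime.pow_left m hcop⟩
  haveI : NeZero ℓ := ⟨hg.ne⟩
  refine ⟨hg, ?_⟩
  have h1 := hζ.neZero'
  have h3 : ((ℓ : ℕ) : k') = algebraMap k k' (ℓ : k) := (map_natCast _ _).symm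
  rw [h3]
  exact (_root_.map_ne_zero _).2 h1.out

/-- The embedding of `N` in the separable closure. -/
theorem exists_emb (hT : IsTower k k' K F) {f : k[X][X]} (hfm : f.Monic)
    (hsep : (f.map (algebraMap k[X] K)).Separable) {θ : N}
    (hθ : aeval θ (f.map (algebraMap k[X] K)) = 0)
    (hNtop : IntermediateField.adjoin K {θ} = ⊤) : Nonempty (N →ₐ[K] Sep F) := by
  haveI := hT.sep
  haveI : IsSepClosure K (Sep F) := sepKΩ hT.map
  have hint : IsIntegral K θ := ⟨f.map (algebraMap k[X] K), hfm.map _, hθ⟩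
  have hs : IsSeparable K θ := hsep.of_dvd (minpoly.dvd K θ hθ)
  have f3 : Algebra.IsSeparable K (IntermediateField.adjoin K {θ}) :=
    (IntermediateField.isSeparable_adjoin_simple_iff_isSeparable K N).2 hs
  rw [hNtop] at f3
  haveI : Algebra.IsSeparable K N :=
    Algebra.IsSeparable.of_algHom K (⊤ : IntermediateField K N)
      (IntermediateField.topEquiv (F := K) (E := N)).symm.toAlgHom
  exact ⟨IsSepClosed.lift⟩

/-- **The criterion for the Tate-Shafarevich group**. -/
theorem mainSha {R : Type} [CommRing R] [IsDedekindDomain R] [Algebra R N] [IsFractionRing R N]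
    [Algebra k[X] R] [IsScalarTower k[X] R N] [Algebra.IsIntegral k[X] R] (hp : p.Prime)
    (hm : 0 < m) (hpm : ℓ = p ^ m) (H : Hyps) (HL : LHyps)
    (hLoc : StShaLoc) (hT : IsTower k k' K F) {ζ : k} (hζ : IsPrimitiveRoot ζ ℓ) {f : k[X][X]}
    (hfm : f.Monic) (hcop : p.Coprime f.natDegree)
    (hsep : (f.map (algebraMap k[X] K)).Separable)
    (hS : SmoothC f) (hirrK : Irreducible (f.map (algebraMap k[X] K)))
    {θ : N} (hθ : aeval θ (f.map (algebraMap k[X] K)) = 0)
    (hNtop : IntermediateField.adjoin K {θ} = ⊤)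
    (hpts : ∀ z : N, z ≠ 0 → (∀ v : HeightOneSpectrum R, IsPw ℓ (v.valuation N z)) →
      ∃ (u : k) (g : N) (S : Multiset K[X]), u ≠ 0 ∧ g ≠ 0 ∧
        (∀ b ∈ S, b.Monic ∧ ∃ c : K[X], b ∣ f.map (algebraMap k[X] K) - c ^ ℓ) ∧
        z = algebraMap k[X] N (C u) * g ^ ℓ * aeval θ S.prod) :
    ShaTriv p ℓ k[X] (f.map (algebraMap k[X] K)) := by
  obtain ⟨hg, hℓk⟩ := good_of hp hm hpm hT hζ hfm hcop hsep
  obtain ⟨i⟩ := exists_emb hT hfm hsep hθ hNtop
  letI : Algebra N (Sep F) := i.toRingHom.toAlgebra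
  haveI : IsScalarTower K N (Sep F) := IsScalarTower.of_algebraMap_eq fun x => (i.commutes x).symm
  exact shaN (R := R) hp hpm H HL hLoc hT hg hfm hℓk hS hirrK hθ hNtop hpts

/-- **The generation of `J(K)`**. -/
theorem mainGen {R : Type} [CommRing R] [IsDedekindDomain R] [Algebra R N] [IsFractionRing R N]
    [Algebra k[X] R] [IsScalarTower k[X] R N] [Algebra.IsIntegral k[X] R] (hp : p.Prime)
    (hm : 0 < m) (hpm : ℓ = p ^ m) (H : Hyps) (HL : LHyps) (hInj : StInj)
    (hLoc : StShaLoc) (hT : IsTower k k' K F) {ζ : k} (hζ : IsPrimitiveRoot ζ ℓ) {f : k[X][X]}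
    (hg : Good ℓ (algebraMap k[X] K (C ζ)) (f.map (algebraMap k[X] K)))
    (hfm : f.Monic) (hcop : p.Coprime f.natDegree)
    (hsep : (f.map (algebraMap k[X] K)).Separable)
    (hS : SmoothC f) (hirrK : Irreducible (f.map (algebraMap k[X] K)))
    {θ : N} (hθ : aeval θ (f.map (algebraMap k[X] K)) = 0)
    (hNtop : IntermediateField.adjoin K {θ} = ⊤) (PP : Set (K[X] × K[X]))
    (hPP : ∀ P ∈ PP, Irreducible P.1 ∧ P.1.Monic ∧ ¬ P.1 ∣ f.map (algebraMap k[X] K) ∧
      P.1 ∣ f.map (algebraMap k[X] K) - P.2 ^ ℓ)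
    (hpts : ∀ z : N, z ≠ 0 → (∀ v : HeightOneSpectrum R, IsPw ℓ (v.valuation N z)) →
      ∃ (u : k) (g : N) (S : Multiset (K[X] × K[X])), u ≠ 0 ∧ g ≠ 0 ∧ (∀ P ∈ S, P ∈ PP) ∧
        z = algebraMap k[X] N (C u) * g ^ ℓ * aeval θ (dvP S))
    (x : Jac ℓ (f.map (algebraMap k[X] K)) K) :
    ∃ (T : Multiset (K[X] × K[X])) (y : Jac ℓ (f.map (algebraMap k[X] K)) K), (∀ P ∈ T, P ∈ PP) ∧
      x = (T.map (ptCl ℓ (f.map (algebraMap k[X] K)))).sum + pe hg K (1 - X) y := by
  obtain ⟨-, hℓk⟩ := good_of hp hm hpm hT hζ hfm hcop hsep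
  obtain ⟨i⟩ := exists_emb hT hfm hsep hθ hNtop
  letI : Algebra N (Sep F) := i.toRingHom.toAlgebra
  haveI : IsScalarTower K N (Sep F) := IsScalarTower.of_algebraMap_eq fun x => (i.commutes x).symm
  exact genN (R := R) hp hpm H HL hInj hLoc hT hg hfm hℓk hS hirrK hθ hNtop PP hPP hpts x

end main

end Pool.Agent.Y160.SH
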