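import Pool.Agent.Y160.SH.Defs
import Pool.Agent.Y160.SQ.Kum

/-!
# The Tate-Shafarevich group of the Jacobian of `y ^ ℓ = f(x)`: statements
-/

set_option autoImplicit false
set_option linter.all false

open Polynomial IsDedekindDomain
open scoped Classical

namespace Pool.Agent.Y160.SH

open Pool.Agent.TH115.GD (incl rs ak Sep Comp CompInf IsTower)
open Pool.Agent.Y160.SQ (Jac jm IsCoc LocTriv Good Hyps Rt Tor chi)

/-- The restriction to the Galois group of `F = k'(t)` of a cocycle of the Galois group of `K = k(t)`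
which is locally trivial over the completions of `K` is locally trivial over the completions
of `F`. -/
def StShaLoc : Prop := ∀ (ℓ : ℕ) (k k' K F : Type) [Field k] [Field k'] [Algebra k k'] [Field K]
  [Algebra k[X] K] [IsFractionRing k[X] K] [Field F] [Algebra k'[X] F] [IsFractionRing k'[X] F]
  [Algebra K F], IsTower k k' K F → ∀ (f : K[X]) (c : (Sep K ≃ₐ[K] Sep K) → Jac ℓ f (Sep K)),
  IsCoc ℓ f c → (∀ v : HeightOneSpectrum k[X], LocTriv ℓ f (Comp k[X] K v) (Sep (Comp k[X] K v)) c) →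
  ∀ (j : Sep K ≃ₐ[K] Sep F) (w : HeightOneSpectrum k'[X]),
    LocTriv ℓ f (Comp k'[X] F w) (Sep (Comp k'[X] F w)) (fun σ : Sep F ≃ₐ[F] Sep F =>
      jm ℓ f (j : Sep K →ₐ[K] Sep F) (c ((j.trans (σ.restrictScalars K)).trans j.symm)))

/-- The norm of the Kummer generator is an `ℓ`-th power. -/
def StShaN : Prop := ∀ (ℓ : ℕ) (K N Ω : Type) [Field K] [Field N] [Field Ω] [Algebra K N]
  [Algebra N Ω] [Algebra K Ω] [IsScalarTower K N Ω] [IsGalois K Ω] [IsSepClosed Ω] (f : K[X])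
  (ζ : K) (hg : Good ℓ ζ f), Hyps → Irreducible f → ∀ (a : Ω) (θ : N), Rt f a →
  algebraMap N Ω θ = a → IntermediateField.adjoin K {θ} = ⊤ →
  ∀ g : (Ω ≃ₐ[K] Ω) → Jac ℓ f Ω, (∀ σ τ, g (σ * τ) = g σ + jm ℓ f (ak σ) (g τ)) →
  (∀ τ, Tor hg (g τ)) → ∀ (t : Ω) (z : N), t ≠ 0 → t ^ ℓ = algebraMap N Ω z →
  (∀ τ : Ω ≃ₐ[K] Ω, τ a = a → τ t = chi hg a (g τ) * t) → ∃ y : K, Algebra.norm K z = y ^ ℓ

end Pool.Agent.Y160.SH
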