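import Pool.Agent.Y160.SH.Par
import Pool.Agent.Y160.SQ.CritM
import Pool.Agent.Y474.SH.N

/-!
# The Tate-Shafarevich group: descent with `1 - σ`
-/

set_option autoImplicit false
set_option linter.all false

open Polynomial IsDedekindDomain WithZero
open scoped nonZeroDivisors Classical

namespace Pool.Agent.Y160.SH

open Pool.Agent.Y160.SQ
open Pool.Agent.TH115.GD (incl rs ak Sep Comp CompInf IsTower rs_mul Preserves exists_conj lift_fix
  cont_rs exists_restrict exists_aut exists_kappa exists_compl_map sepKΩ preserves exists_over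
  val_unram)
open Pool.Agent.W309.TD (locConst_apply compare)
open Pool.Agent.Y160.SE (SmoothC IsPw)

section desc

variable {p m ℓ : ℕ} {K : Type} [Field K] {A : Type} [CommRing A] [IsDedekindDomain A]
  [Algebra A K] [IsFractionRing A K] {f : K[X]} {ζ : K} (H : Hyps) (hg : Good ℓ ζ f)
  (hp : p.Prime) (hpm : ℓ = p ^ m)

include H hg hp hpm

/-- If the locally trivial cocycles with values killed by `1 - σ` are coboundaries, the group is
trivial. -/
theorem sha_of_tor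
    (h : ∀ c : (Sep K ≃ₐ[K] Sep K) → Jac ℓ f (Sep K), IsCoc ℓ f c → (∀ σ, Tor hg (c σ)) →
      (∀ v : HeightOneSpectrum A, LocTriv ℓ f (Comp A K v) (Sep (Comp A K v)) c) →
      ∃ P : Jac ℓ f (Sep K), ∀ σ, c σ = jm ℓ f (rs K σ) P - P) : ShaTriv p ℓ A f := by
  have key : ∀ (N : ℕ) (c : (Sep K ≃ₐ[K] Sep K) → Jac ℓ f (Sep K)), IsCoc ℓ f c →
      (∀ v : HeightOneSpectrum A, LocTriv ℓ f (Comp A K v) (Sep (Comp A K v)) c) →
      (∃ P : Jac ℓ f (Sep K), ∀ σ, pe hg (Sep K) ((1 - X) ^ N) (c σ) = jm ℓ f (rs K σ) P - P) →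
      ∃ P : Jac ℓ f (Sep K), ∀ σ, c σ = jm ℓ f (rs K σ) P - P := by
    intro N
    induction N with
    | zero =>
      rintro c - - ⟨P, hP⟩
      refine ⟨P, fun σ => ?_⟩
      have := hP σ
      rwa [pow_zero, pe_one] at this
    | succ N ih =>
      rintro c hc hv ⟨P, hP⟩
      obtain ⟨y, hy⟩ := lam_surj H hg P
      have hc1 : IsCoc ℓ f (fun σ => pe hg (Sep K) ((1 - X) ^ N) (c σ)) := hc.pe hg _
      have hc2 : IsCoc ℓ f (fun σ => pe hg (Sep K) ((1 - X) ^ N) (c σ) -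
          (jm ℓ f (rs K σ) y - y)) := hc1.sub (cob_isCoc H hg y)
      obtain ⟨P2, hP2⟩ := h _ hc2 (fun σ => by
        unfold Tor
        rw [map_sub, map_sub, ← jm_pe, hy, ← pe_mul, ← pow_succ', hP, sub_self])
        (fun v => ((hv v).pe hg _).sub y)
      refine ih c hc hv ⟨P2 + y, fun σ => ?_⟩
      have h1 := hP2 σ
      rw [sub_eq_iff_eq_add] at h1
      rw [h1, map_add]
      abel
  rintro c hc ⟨n, P, hP⟩ hv
  obtain ⟨W, hW⟩ := exists_W' (p := p) (m := m) hg hp hpm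
  have hWn : ∀ (n : ℕ) (x : Jac ℓ f (Sep K)), pe hg (Sep K) ((1 - X) ^ (ℓ * n)) x =
      pe hg (Sep K) (W ^ n) (p ^ n • x) := by
    intro n
    induction n with
    | zero => intro x; rw [mul_zero, pow_zero, pow_zero, pow_zero, one_smul]
    | succ n ih =>
      intro x
      rw [mul_add, mul_one, pow_add, pe_mul, hW, ih, pow_succ W, pe_mul, pow_succ p, mul_smul,
        ← map_nsmul, ← map_nsmul, smul_comm]
  refine key (ℓ * n) c hc hv ⟨pe hg (Sep K) (W ^ n) P, fun σ => ?_⟩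
  rw [hWn, hP, map_sub, jm_pe]

end desc

section conj

variable {K Ω Ω' : Type} [Field K] [Field Ω] [Field Ω'] [Algebra K Ω] [Algebra K Ω']
  [IsGalois K Ω] [IsGalois K Ω'] (j : Ω ≃ₐ[K] Ω')

/-- Conjugation. -/
def cj (τ : Ω' ≃ₐ[K] Ω') : Ω ≃ₐ[K] Ω := (j.trans τ).trans j.symm

omit [IsGalois K Ω] [IsGalois K Ω'] in
theorem cj_mul (σ τ : Ω' ≃ₐ[K] Ω') : cj j (σ * τ) = cj j σ * cj j τ := by
  apply AlgEquiv.ext
  intro x
  show j.symm (σ (τ (j x))) = j.symm (σ (j (j.symm (τ (j x)))))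
  rw [AlgEquiv.apply_symm_apply]

/-- Conjugation is continuous. -/
theorem cont_cj : Continuous (cj j) := by
  let φ : (Ω' ≃ₐ[K] Ω') →* (Ω ≃ₐ[K] Ω) := MonoidHom.mk' (cj j) (cj_mul j)
  show Continuous φ
  apply continuous_of_continuousAt_one
  unfold ContinuousAt
  rw [map_one]
  intro s hs
  obtain ⟨E, hE, hEs⟩ := (krullTopology_mem_nhds_one_iff K Ω s).1 hs
  haveI : Algebra.IsSeparable K E := inferInstance
  obtain ⟨α, hα⟩ := Field.exists_primitive_element K E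
  have ho : (MulAction.stabilizer (Ω' ≃ₐ[K] Ω') (j (α : Ω)) : Set (Ω' ≃ₐ[K] Ω')) ∈
      nhds (1 : Ω' ≃ₐ[K] Ω') :=
    (stabilizer_isOpen_of_isIntegral (K := K) (j (α : Ω))).mem_nhds
      (MulAction.stabilizer (Ω' ≃ₐ[K] Ω') (j (α : Ω))).one_mem
  rw [Filter.mem_map]
  refine Filter.mem_of_superset ho fun τ hτ => hEs ?_
  have hτ' : τ (j (α : Ω)) = j α := hτ
  show cj j τ ∈ E.fixingSubgroup
  rw [IntermediateField.mem_fixingSubgroup_iff]
  intro x hx
  have key : ((cj j τ).toAlgHom.comp E.val) = E.val := by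
    refine AlgHom.ext fun y => ?_
    have hy : y ∈ (⊤ : IntermediateField K E) := trivial
    rw [← hα] at hy
    refine IntermediateField.adjoin_induction K
      (p := fun y _ => ((cj j τ).toAlgHom.comp E.val) y = E.val y) ?_ ?_ ?_ ?_ ?_ hy
    · intro y hy
      rw [Set.mem_singleton_iff] at hy
      subst hy
      show j.symm (τ (j (y : Ω))) = y
      rw [hτ', AlgEquiv.symm_apply_apply]
    · intro y
      rw [AlgHom.commutes, AlgHom.commutes]
    · intro x y _ _ hx hy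
      rw [map_add, map_add, hx, hy]
    · intro x _ hx
      rw [map_inv₀, map_inv₀, hx]
    · intro x y _ _ hx hy
      rw [map_mul, map_mul, hx, hy]
  exact DFunLike.congr_fun key ⟨x, hx⟩

end conj

section trans

variable {ℓ : ℕ} {K Ω Ω' : Type} [Field K] [Field Ω] [Field Ω'] [Algebra K Ω] [Algebra K Ω']
  [IsGalois K Ω] [IsGalois K Ω'] {f : K[X]} (j : Ω ≃ₐ[K] Ω')

/-- The transport of a cocycle. -/
noncomputable def tr (c : (Ω ≃ₐ[K] Ω) → Jac ℓ f Ω) (τ : Ω' ≃ₐ[K] Ω') : Jac ℓ f Ω' :=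
  jm ℓ f (j : Ω →ₐ[K] Ω') (c (cj j τ))

theorem tr_lc {c : (Ω ≃ₐ[K] Ω) → Jac ℓ f Ω} (hc : IsCoc ℓ f c) : IsLocallyConstant (tr j c) :=
  (hc.lc.comp_continuous (cont_cj j)).comp _

omit [IsGalois K Ω] [IsGalois K Ω'] in
theorem tr_mul {c : (Ω ≃ₐ[K] Ω) → Jac ℓ f Ω} (hc : IsCoc ℓ f c) (σ τ : Ω' ≃ₐ[K] Ω') :
    tr j c (σ * τ) = tr j c σ + jm ℓ f (ak σ) (tr j c τ) := by
  unfold tr
  rw [cj_mul, hc.mul, map_add]
  congr 1
  have e : (j : Ω →ₐ[K] Ω').comp (rs K (cj j σ)) = (ak σ).comp (j : Ω →ₐ[K] Ω') := by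
    apply AlgHom.ext
    intro x
    show j (j.symm (σ (j x))) = σ (j x)
    rw [AlgEquiv.apply_symm_apply]
  rw [jm_jm, jm_jm, e]

omit [IsGalois K Ω] [IsGalois K Ω'] in
/-- The transport of a coboundary. -/
theorem tr_cob {c : (Ω ≃ₐ[K] Ω) → Jac ℓ f Ω} {P : Jac ℓ f Ω'}
    (h : ∀ τ : Ω' ≃ₐ[K] Ω', tr j c τ = jm ℓ f (ak τ) P - P) :
    ∃ P' : Jac ℓ f Ω, ∀ σ : Ω ≃ₐ[K] Ω, c σ = jm ℓ f (rs K σ) P' - P' := by
  refine ⟨jm ℓ f (j.symm : Ω' →ₐ[K] Ω) P, fun σ => ?_⟩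
  have h1 := h ((j.symm.trans σ).trans j)
  have e1 : cj j ((j.symm.trans σ).trans j) = σ := by
    apply AlgEquiv.ext
    intro x
    show j.symm (j (σ (j.symm (j x)))) = σ x
    rw [AlgEquiv.symm_apply_apply, AlgEquiv.symm_apply_apply]
  unfold tr at h1
  rw [e1] at h1
  have h2 := congrArg (jm ℓ f (j.symm : Ω' →ₐ[K] Ω)) h1
  rw [map_sub, jm_jm, jm_jm] at h2
  have e2 : ((j.symm : Ω' →ₐ[K] Ω).comp (j : Ω →ₐ[K] Ω')) = AlgHom.id K Ω := by
    apply AlgHom.ext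
    intro x
    show j.symm (j x) = x
    rw [AlgEquiv.symm_apply_apply]
  have e3 : ((j.symm : Ω' →ₐ[K] Ω).comp (ak ((j.symm.trans σ).trans j))) =
      (rs K σ).comp (j.symm : Ω' →ₐ[K] Ω) := by
    apply AlgHom.ext
    intro x
    show j.symm (j (σ (j.symm x))) = σ (j.symm x)
    rw [AlgEquiv.symm_apply_apply]
  rw [e2, jm_id, e3] at h2
  rw [h2, jm_jm]

end trans

section pw

variable {k K : Type} [Field k] [Field K] [Algebra k[X] K] [IsFractionRing k[X] K]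

/-- A constant which is a power in `k(t)` is a power in `k`. -/
theorem const_pw {ℓ : ℕ} (hℓ : 0 < ℓ) {c : k} {y : K} (h : algebraMap k[X] K (C c) = y ^ ℓ) :
    ∃ s : k, s ^ ℓ = c := by
  obtain ⟨P, rfl⟩ : ∃ P : k[X], algebraMap k[X] K P = y :=
    IsIntegrallyClosed.exists_algebraMap_eq_of_isIntegral_pow (n := ℓ) hℓ
      (by rw [← h]; exact isIntegral_algebraMap)
  rw [← map_pow] at h
  have h1 : C c = P ^ ℓ := IsFractionRing.injective k[X] K h
  have h2 : P.natDegree = 0 := by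
    have h3 := congrArg natDegree h1
    rw [natDegree_C, natDegree_pow] at h3
    rcases Nat.mul_eq_zero.1 h3.symm with h4 | h4
    · omega
    · exact h4
  obtain ⟨s, rfl⟩ := natDegree_eq_zero.1 h2
  refine ⟨s, C_injective ?_⟩
  rw [C_pow, h1]

end pw

end Pool.Agent.Y160.SH
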