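import Pool.Agent.Y160.SH.Sha
import Pool.Agent.Y160.RK.Key

/-!
# The criterion for the Tate-Shafarevich group: the class of the Kummer generator
-/

set_option autoImplicit false
set_option linter.all false

open Polynomial IsDedekindDomain WithZero
open scoped nonZeroDivisors Classical

namespace Pool.Agent.Y160.SH

open Pool.Agent.Y160.SQ
open Pool.Agent.TH115.GD (incl rs ak Sep Comp CompInf IsTower rs_mul Preserves exists_conj lift_fix
  cont_rs exists_restrict exists_aut exists_kappa exists_compl_map sepKΩ preserves exists_over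
  val_unram)
open Pool.Agent.W309.TD (locConst_apply compare)
open Pool.Agent.Y160.SE (SmoothC IsPw)
open Pool.Agent.Y160.RK (ptCl dvI_cl jm_fix)

section torK

variable {ℓ : ℕ} {k K N Ω : Type} [Field k] [Field K] [Algebra k[X] K] [IsFractionRing k[X] K]
  [Field N] [Field Ω] [Algebra K N] [Algebra N Ω] [Algebra K Ω] [IsScalarTower K N Ω]
  [IsGalois K Ω] [IsSepClosed Ω] {f1 : K[X]} {ζ : K}

/-- The constants of a factorisation of the Kummer generator. -/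
theorem const_torK (H : Hyps) (hg : Good ℓ ζ f1) (hirrK : Irreducible f1) {a : Ω} (ha : Rt f1 a)
    {θ : N} (hθ : algebraMap N Ω θ = a) (hNtop : IntermediateField.adjoin K {θ} = ⊤)
    {g : (Ω ≃ₐ[K] Ω) → Jac ℓ f1 Ω} (hmul : ∀ σ τ, g (σ * τ) = g σ + jm ℓ f1 (ak σ) (g τ))
    (hg2 : ∀ τ, Tor hg (g τ)) {t : Ω} {z : N} (ht : t ≠ 0) (hz : t ^ ℓ = algebraMap N Ω z)
    (hk : ∀ τ : Ω ≃ₐ[K] Ω, τ a = a → τ t = chi hg a (g τ) * t) (hz0 : z ≠ 0) {u : k} {g0 : N}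
    {S : Multiset (K[X] × K[X])} (hu : u ≠ 0) (hg0 : g0 ≠ 0)
    (hSp' : ∀ P ∈ S, Irreducible P.1 ∧ P.1.Monic ∧ ¬ P.1 ∣ f1 ∧ P.1 ∣ f1 - P.2 ^ ℓ)
    (hze1 : z = algebraMap K N (algebraMap k[X] K (C u)) * g0 ^ ℓ * aeval θ (dvP S)) :
    ∃ (εK : k) (yS : K) (s1 : k), εK ≠ 0 ∧
      ((f1.map (algebraMap K Ω)).roots.map fun β => aeval β (dvP S)).prod =
        algebraMap K Ω (algebraMap k[X] K (C εK)) * algebraMap K Ω yS ^ ℓ ∧
      s1 ^ ℓ = u ^ f1.natDegree * εK := by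
  have hKK : f1.map (algebraMap K K) = f1 := by rw [Algebra.algebraMap_self, Polynomial.map_id]
  have haeθ : ∀ P : K[X], algebraMap N Ω (aeval θ P) = aeval a P := by
    intro P
    rw [← hθ, aeval_algebraMap_apply]
  -- the norm of `dvP S`
  have hsplK : (f1.map (algebraMap K Ω)).Splits := splits_up hg
  obtain ⟨εK, yS, hε2, hyS⟩ : ∃ (ε : k) (y : K), ε * ε = 1 ∧
      ((f1.map (algebraMap K Ω)).roots.map fun β => aeval β (dvP S)).prod =
        algebraMap K Ω (algebraMap k[X] K (C ε)) * algebraMap K Ω y ^ ℓ := by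
    obtain ⟨y, hy⟩ := lp_norm hg.monic hsplK (dvP_lp hg.pos hSp')
    rcases hy with h | h
    · exact ⟨1, y, one_mul 1, by rw [h, C_1, map_one, map_one, one_mul, map_pow]⟩
    · exact ⟨-1, y, by ring, by
        rw [h, C_neg, C_1, map_neg, map_one, map_neg, map_one, neg_one_mul, map_pow]⟩
  have hεK0 : εK ≠ 0 := left_ne_zero_of_mul (by rw [hε2]; exact one_ne_zero)
  -- the norm of `z`
  obtain ⟨yz, hyz⟩ := Pool.Agent.Y474.SH.stShaN ℓ K N Ω f1 ζ hg H hirrK a θ ha hθ hNtop g hmul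
    hg2 t z ht hz hk
  have hθint : IsIntegral K θ := by
    have h1 : IsIntegral K (algebraMap N Ω θ) := Algebra.IsIntegral.isIntegral _
    exact (isIntegral_algebraMap_iff (algebraMap N Ω).injective).1 h1
  haveI : FiniteDimensional K N := by
    have h1 : FiniteDimensional K (IntermediateField.adjoin K {θ}) :=
      IntermediateField.adjoin.finiteDimensional hθint
    rw [hNtop] at h1
    exact LinearEquiv.finiteDimensional (IntermediateField.topEquiv (F := K) (E := N)).toLinearEquiv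
  have hrank : Module.finrank K N = f1.natDegree := by
    have h1 := IntermediateField.adjoin.finrank hθint
    have h2 : f1 = minpoly K θ := by
      refine minpoly.eq_of_irreducible_of_monic hirrK ?_ hg.monic
      apply (algebraMap N Ω).injective
      rw [haeθ, map_zero]
      exact ha
    rw [hNtop, IntermediateField.finrank_top', ← h2] at h1
    exact h1
  have hnS : algebraMap K Ω (Algebra.norm K (aeval θ (dvP S))) =
      algebraMap K Ω (algebraMap k[X] K (C εK)) * algebraMap K Ω yS ^ ℓ := by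
    have hirr' : Irreducible (f1.map (algebraMap K K)) := by rw [hKK]; exact hirrK
    have htr : ∀ β : Ω, ∃ ρ : Ω ≃ₐ[K] Ω, Rt f1 β → ρ a = β := by
      intro β
      by_cases hβ : Rt f1 β
      · obtain ⟨ρ, hρ⟩ := trans_rt hg hirr' ha hβ
        exact ⟨ρ, fun _ => hρ⟩
      · exact ⟨1, fun h => absurd h hβ⟩
    choose ρ hρ using htr
    rw [Pool.Agent.Y474.SH.norm_prod hsplK hg.sep ha hθ hNtop ρ hρ, ← hyS, Finset.prod,
      Multiset.toFinset_val, Multiset.dedup_eq_self.2 (nodup_roots (hg.up Ω).sep)]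
    congr 1
    apply Multiset.map_congr rfl
    intro β hβ
    have hβ' : Rt f1 β := rt_of ((mem_roots (hg.up Ω).monic.ne_zero).1 hβ)
    have h1 := aeval_algHom_apply (ak (ρ β)) a (dvP S)
    have h2 : (ak (ρ β)) a = β := hρ β hβ'
    rw [h2] at h1
    rw [haeθ]
    exact h1.symm
  have hnS' : Algebra.norm K (aeval θ (dvP S)) = algebraMap k[X] K (C εK) * yS ^ ℓ := by
    apply (algebraMap K Ω).injective
    rw [hnS, map_mul, map_pow]
  have hnz : Algebra.norm K z = algebraMap k[X] K (C (u ^ f1.natDegree * εK)) *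
      (Algebra.norm K g0 * yS) ^ ℓ := by
    rw [hze1, map_mul, map_mul, map_pow, hnS', Algebra.norm_algebraMap, hrank, C_mul, map_mul,
      C_pow, map_pow, mul_pow]
    ring
  -- the constant is an `ℓ`-th power
  have hng0 : Algebra.norm K g0 * yS ≠ 0 := by
    intro h0
    rw [h0, zero_pow hg.ne, mul_zero] at hnz
    exact hz0 (Algebra.norm_eq_zero_iff.1 hnz)
  obtain ⟨s1, hs1⟩ : ∃ s : k, s ^ ℓ = u ^ f1.natDegree * εK := by
    refine const_pw (K := K) hg.pos (y := yz / (Algebra.norm K g0 * yS)) ?_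
    rw [div_pow, ← hyz, hnz, mul_div_assoc, div_self (pow_ne_zero _ hng0), mul_one]
  exact ⟨εK, yS, s1, hεK0, hyS, hs1⟩

/-- The class of the Kummer generator. -/
theorem torK2 (H : Hyps) (hg : Good ℓ ζ f1) (hirrK : Irreducible f1) {a : Ω} (ha : Rt f1 a)
    {θ : N} (hθ : algebraMap N Ω θ = a) (hNtop : IntermediateField.adjoin K {θ} = ⊤)
    {g : (Ω ≃ₐ[K] Ω) → Jac ℓ f1 Ω} (hmul : ∀ σ τ, g (σ * τ) = g σ + jm ℓ f1 (ak σ) (g τ))
    (hg2 : ∀ τ, Tor hg (g τ)) {t : Ω} {z : N} (ht : t ≠ 0) (hz : t ^ ℓ = algebraMap N Ω z)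
    (hk : ∀ τ : Ω ≃ₐ[K] Ω, τ a = a → τ t = chi hg a (g τ) * t) (hz0 : z ≠ 0) {u : k} {g0 : N}
    {S : Multiset (K[X] × K[X])} (hu : u ≠ 0) (hg0 : g0 ≠ 0)
    (hSp' : ∀ P ∈ S, Irreducible P.1 ∧ P.1.Monic ∧ ¬ P.1 ∣ f1 ∧ P.1 ∣ f1 - P.2 ^ ℓ)
    (hze1 : z = algebraMap K N (algebraMap k[X] K (C u)) * g0 ^ ℓ * aeval θ (dvP S)) :
    ∃ (m' : ℕ) (R0 R' : Jac ℓ f1 Ω),
      pe hg Ω (1 - X) R0 = jm ℓ f1 (incl K K Ω) (((m' • S).map (ptCl ℓ f1)).sum) ∧ Tor hg R' ∧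
      ∀ σ : Ω ≃ₐ[K] Ω, g σ = jm ℓ f1 (ak σ) (R0 + R') - (R0 + R') := by
  have hKK : f1.map (algebraMap K K) = f1 := by rw [Algebra.algebraMap_self, Polynomial.map_id]
  have hze : z = algebraMap K N (algebraMap k[X] K (C u)) * g0 ^ ℓ *
      (S.map fun P => aeval θ P.1).prod := by
    rw [hze1, dvP_eval]
  have hS0 : ∀ P ∈ S, aeval θ P.1 ≠ 0 := by
    intro P hP h0
    apply hz0
    rw [hze, Multiset.prod_eq_zero (Multiset.mem_map.2 ⟨P, hP, h0⟩), mul_zero]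
  have haeθ : ∀ P : K[X], algebraMap N Ω (aeval θ P) = aeval a P := by
    intro P
    rw [← hθ, aeval_algebraMap_apply]
  -- the multiple
  obtain ⟨m', hm⟩ : ∃ m : ℕ, f1.natDegree * m % ℓ = 1 := by
    obtain ⟨m, -, hm⟩ := Nat.exists_mul_mod_eq_one_of_coprime hg.cop.symm hg.one_lt
    exact ⟨m, hm⟩
  obtain ⟨q, hq⟩ : ∃ q : ℕ, m' * f1.natDegree = ℓ * q + 1 := by
    refine ⟨f1.natDegree * m' / ℓ, ?_⟩
    have := Nat.div_add_mod (f1.natDegree * m') ℓ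
    rw [hm] at this
    rw [mul_comm m']
    exact this.symm
  obtain ⟨εK, yS, s1, hεK0, hyS, hs1⟩ := const_torK H hg hirrK ha hθ hNtop hmul hg2 ht hz hk hz0 hu
    hg0 hSp' hze1
  obtain ⟨s, hs⟩ : ∃ s : k, s ^ ℓ = u * εK ^ m' := by
    refine ⟨s1 ^ m' / u ^ q, ?_⟩
    have hu' : (u ^ q) ^ ℓ ≠ 0 := pow_ne_zero _ (pow_ne_zero _ hu)
    rw [div_pow, ← pow_mul, mul_comm m' ℓ, pow_mul, hs1, mul_pow, ← pow_mul, mul_comm f1.natDegree,
      hq, div_eq_iff hu', pow_succ, pow_mul, ← pow_mul, ← pow_mul, mul_comm ℓ q]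
    ring
  -- the class
  let T : Multiset (K[X] × K[X]) := m' • S
  have hTp : ∀ P ∈ T, Irreducible P.1 ∧ P.1.Monic ∧ ¬ P.1 ∣ f1.map (algebraMap K K) ∧
      P.1 ∣ f1.map (algebraMap K K) - P.2 ^ ℓ := by
    intro P hP
    have hP' : P ∈ S := Multiset.mem_of_mem_nsmul hP
    rw [hKK]
    exact hSp' P hP'
  let I : Ideal (CR ℓ (f1.map (algebraMap K K))) := dvI ℓ _ T
  have hIc : I ⊔ Ideal.span {yy ℓ (f1.map (algebraMap K K))} = ⊤ := dvI_cop fun P hP =>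
    ⟨(hTp P hP).1, not_dvd_c hg.ne (hTp P hP).1 (hTp P hP).2.2.1 (hTp P hP).2.2.2⟩
  have hIP : IsCl K I ((T.map (ptCl ℓ f1)).sum) := dvI_cl H hg fun P hP => (hTp P hP).1
  have hN := dvI_norm (ℓ := ℓ) H.max (hg.up K) (S := T) hTp
  have hLP := dvP_lp hg.pos hTp
  obtain ⟨R0, hR0⟩ := lam_surj H hg (jm ℓ f1 (incl K K Ω) ((T.map (ptCl ℓ f1)).sum))
  obtain ⟨t', ht1, ht2⟩ := kcJ H hg hIP hIc (lp_coprime hLP) hN hR0
  obtain ⟨ht0, hG0, hteq⟩ := ht1 a ha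
  have PK : ∀ φ : Ω →ₐ[K] Ω, jm ℓ f1 φ (jm ℓ f1 (incl K K Ω) ((T.map (ptCl ℓ f1)).sum)) =
      jm ℓ f1 (incl K K Ω) ((T.map (ptCl ℓ f1)).sum) := fun φ => jm_fix H hg φ _
  have hTor : ∀ φ : Ω →ₐ[K] Ω, Tor hg (jm ℓ f1 φ R0 - R0) := by
    intro φ
    unfold Tor
    rw [map_sub, ← jm_pe, hR0, PK, sub_self]
  -- the value at `a`
  set G : Ω := (S.map fun P => aeval a P.1).prod with hG
  have hGT' : ∀ β : Ω, aeval β (dvP T) = aeval β (dvP S) ^ m' := by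
    intro β
    rw [dvP_eval, dvP_eval]
    show ((m' • S).map fun P => aeval β P.1).prod = _
    rw [Multiset.map_nsmul, Multiset.prod_nsmul]
  have hGT : aeval a (dvP T) = G ^ m' := by rw [hGT', dvP_eval, hG]
  have hG0' : G ≠ 0 := by
    intro h0
    rw [hG, Multiset.prod_eq_zero_iff, Multiset.mem_map] at h0
    obtain ⟨P, hP, h0⟩ := h0
    apply hS0 P hP
    apply (algebraMap N Ω).injective
    rw [haeθ, map_zero]
    exact h0
  have hGpow : aeval a (dvP T) ^ f1.natDegree = (G ^ q) ^ ℓ * G := by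
    rw [hGT, ← pow_mul, hq, pow_succ, pow_mul, ← pow_mul, ← pow_mul, mul_comm ℓ q]
  rw [hGpow] at hteq
  -- the norm of `dvP T`
  have hyT : ((f1.map (algebraMap K Ω)).roots.map fun β => aeval β (dvP T)).prod =
      algebraMap K Ω (algebraMap k[X] K (C (εK ^ m'))) *
        (algebraMap K Ω yS ^ m') ^ ℓ := by
    have h1 : (fun β => aeval β (dvP T)) = fun β : Ω => aeval β (dvP S) ^ m' := by
      funext β
      exact hGT' β
    rw [h1, Multiset.prod_map_pow, hyS, mul_pow, C_pow, map_pow, map_pow, ← pow_mul, ← pow_mul,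
      mul_comm ℓ m']
  rw [hyT] at hteq
  set sF : Ω := algebraMap K Ω (algebraMap k[X] K (C s)) with hsF
  have hsF' : sF ^ ℓ = algebraMap K Ω (algebraMap k[X] K (C u)) *
      algebraMap K Ω (algebraMap k[X] K (C (εK ^ m'))) := by
    rw [hsF, ← map_pow, ← map_pow, ← C_pow, hs, C_mul, map_mul, map_mul]
  set w : Ω := sF * algebraMap N Ω g0 * algebraMap K Ω yS ^ m' / G ^ q with hw
  have hGq : (G ^ q) ≠ 0 := pow_ne_zero _ hG0'
  have hz' : t ^ ℓ = (w * t' a) ^ ℓ := by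
    have h1 : algebraMap N Ω z = algebraMap K Ω (algebraMap k[X] K (C u)) *
        algebraMap N Ω g0 ^ ℓ * G := by
      rw [hze, map_mul, map_mul, map_pow, map_multiset_prod, Multiset.map_map, hG,
        ← IsScalarTower.algebraMap_apply K N Ω]
      congr 2
      apply Multiset.map_congr rfl
      intro P _
      show algebraMap N Ω (aeval θ P.1) = _
      rw [haeθ]
    have h3 : G = t' a ^ ℓ * (algebraMap K Ω (algebraMap k[X] K (C (εK ^ m'))) *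
        (algebraMap K Ω yS ^ m') ^ ℓ) / (G ^ q) ^ ℓ := by
      rw [hteq, mul_div_cancel_left₀ _ (pow_ne_zero _ hGq)]
    rw [hz, h1, hw, mul_pow, div_pow, mul_pow, mul_pow, hsF']
    conv_lhs => rw [h3]
    ring
  have hy0 : algebraMap K Ω yS ^ m' ≠ 0 := by
    intro h0
    rw [h0, zero_pow hg.ne, mul_zero, mul_zero] at hteq
    exact (mul_ne_zero (pow_ne_zero _ hGq) hG0') hteq.symm
  have hsF0 : sF ≠ 0 := by
    intro h0
    rw [h0, zero_pow hg.ne] at hsF'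
    rcases mul_eq_zero.1 hsF'.symm with h | h
    · have h2 := (_root_.map_eq_zero _).1 h
      rw [map_eq_zero_iff _ (IsFractionRing.injective k[X] K), C_eq_zero] at h2
      exact hu h2
    · have h2 := (_root_.map_eq_zero _).1 h
      rw [map_eq_zero_iff _ (IsFractionRing.injective k[X] K), C_eq_zero] at h2
      exact pow_ne_zero _ hεK0 h2
  have hg0' : algebraMap N Ω g0 ≠ 0 := (_root_.map_ne_zero _).2 hg0
  have hw0 : w ≠ 0 := div_ne_zero (mul_ne_zero (mul_ne_zero hsF0 hg0') hy0) hGq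
  have hwt : w * t' a ≠ 0 := mul_ne_zero hw0 ht0
  obtain ⟨i, hi⟩ : ∃ i : ℕ, t = algebraMap K Ω (ζ ^ i) * (w * t' a) := by
    have h1 : (t / (w * t' a)) ^ ℓ = 1 := by
      rw [div_pow, hz', div_self (pow_ne_zero _ hwt)]
    haveI := NeZero.mk hg.ne
    obtain ⟨i, -, hi⟩ := (hg.up Ω).root.eq_pow_of_pow_eq_one h1
    refine ⟨i, ?_⟩
    rw [map_pow, hi, div_mul_cancel₀ _ hwt]
  have hfixN : ∀ σ : Ω ≃ₐ[K] Ω, σ a = a → ∀ y : N,
      σ (algebraMap N Ω y) = algebraMap N Ω y := by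
    intro σ hσ y
    obtain ⟨τ', hτ'⟩ := lift_fix hNtop σ (by rw [hθ]; exact hσ)
    have h1 := hτ' (algebraMap N Ω y)
    rw [τ'.commutes] at h1
    exact h1.symm
  have hfixK : ∀ (σ : Ω ≃ₐ[K] Ω) (y : K),
      σ (algebraMap K Ω y) = algebraMap K Ω y := by
    intro σ y
    exact σ.commutes y
  have hwfix : ∀ σ : Ω ≃ₐ[K] Ω, σ a = a → σ w = w := by
    intro σ hσ
    rw [hw, map_div₀, map_mul, map_mul, hfixN σ hσ, map_pow, hfixK, map_pow, hsF, hfixK]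
    have h1 : σ G = G := by
      rw [hG, map_multiset_prod, Multiset.map_map]
      congr 1
      apply Multiset.map_congr rfl
      intro P _
      show σ (aeval a P.1) = _
      have h1 : aeval (ak σ a) P.1 = ak σ (aeval a P.1) := aeval_algHom_apply _ _ _
      have h2 : ak σ a = a := hσ
      rw [h2] at h1
      exact h1.symm
    rw [h1]
  have hs1' : ∀ σ : Ω ≃ₐ[K] Ω, σ a = a →
      chi hg a (g σ - (jm ℓ f1 (rs K σ) R0 - R0)) = 1 := by
    intro σ hσ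
    have h1 := hk σ hσ
    have h3 := ht2 σ a ha (hTor _)
    rw [hσ] at h3
    have h4 : σ t = chi hg a (jm ℓ f1 (rs K σ) R0 - R0) * t := by
      rw [hi, map_mul, map_mul, hfixK, hwfix σ hσ, h3]
      ring
    rw [h4] at h1
    have h5 := mul_right_cancel₀ ht h1
    rw [chi_sub H hg (hg2 σ) (hTor _) ha, ← h5, div_self (chi_ne H hg (hTor _) ha)]
  have hirrKK : Irreducible (f1.map (algebraMap K K)) := by rw [hKK]; exact hirrK
  have hcoc' : ∀ σ τ : Ω ≃ₐ[K] Ω, (g (σ * τ) - (jm ℓ f1 (rs K (σ * τ)) R0 - R0)) =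
      (g σ - (jm ℓ f1 (rs K σ) R0 - R0)) +
        jm ℓ f1 (rs K σ) (g τ - (jm ℓ f1 (rs K τ) R0 - R0)) := by
    intro σ τ
    have e1 : jm ℓ f1 (rs K (σ * τ)) R0 = jm ℓ f1 (rs K σ) (jm ℓ f1 (rs K τ) R0) := by
      rw [jm_jm, rs_mul]
    have e2 : jm ℓ f1 (ak σ) (g τ) = jm ℓ f1 (rs K σ) (g τ) := rfl
    rw [hmul, map_sub, map_sub, e1, e2]
    abel
  obtain ⟨R', hR', hR''⟩ := cob1 (F := K) H hg hirrKK ha hcoc' (fun σ => (hg2 σ).sub (hTor _)) hs1'
  refine ⟨m', R0, R', hR0, hR', fun σ => ?_⟩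
  have h1 : g σ - (jm ℓ f1 (rs K σ) R0 - R0) = jm ℓ f1 (rs K σ) R' - R' := hR'' σ
  rw [sub_eq_iff_eq_add] at h1
  have h2 : jm ℓ f1 (ak σ) (R0 + R') = jm ℓ f1 (rs K σ) (R0 + R') := rfl
  rw [h2, h1, map_add]
  abel

/-- The class of the Kummer generator. -/
theorem torK (H : Hyps) (hg : Good ℓ ζ f1) (hirrK : Irreducible f1) {a : Ω} (ha : Rt f1 a)
    {θ : N} (hθ : algebraMap N Ω θ = a) (hNtop : IntermediateField.adjoin K {θ} = ⊤)
    {g : (Ω ≃ₐ[K] Ω) → Jac ℓ f1 Ω} (hmul : ∀ σ τ, g (σ * τ) = g σ + jm ℓ f1 (ak σ) (g τ))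
    (hg2 : ∀ τ, Tor hg (g τ)) {t : Ω} {z : N} (ht : t ≠ 0) (hz : t ^ ℓ = algebraMap N Ω z)
    (hk : ∀ τ : Ω ≃ₐ[K] Ω, τ a = a → τ t = chi hg a (g τ) * t) (hz0 : z ≠ 0) {u : k} {g0 : N}
    {S0 : Multiset K[X]} (hu : u ≠ 0) (hg0 : g0 ≠ 0)
    (hSp0 : ∀ b ∈ S0, b.Monic ∧ ∃ c : K[X], b ∣ f1 - c ^ ℓ)
    (hze0 : z = algebraMap K N (algebraMap k[X] K (C u)) * g0 ^ ℓ * aeval θ S0.prod) :
    ∃ P : Jac ℓ f1 Ω, ∀ σ : Ω ≃ₐ[K] Ω, g σ = jm ℓ f1 (ak σ) P - P := by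
  obtain ⟨S, hSp, hS0prod⟩ := exists_factors (ℓ := ℓ) (f := f1) S0 hSp0
  have hze1 : z = algebraMap K N (algebraMap k[X] K (C u)) * g0 ^ ℓ * aeval θ (dvP S) := by
    rw [hze0, ← hS0prod]
  have hS0 : ∀ P ∈ S, aeval θ P.1 ≠ 0 := by
    intro P hP h0
    apply hz0
    rw [hze1, dvP_eval, Multiset.prod_eq_zero (Multiset.mem_map.2 ⟨P, hP, h0⟩), mul_zero]
  have hSp' : ∀ P ∈ S, Irreducible P.1 ∧ P.1.Monic ∧ ¬ P.1 ∣ f1 ∧ P.1 ∣ f1 - P.2 ^ ℓ := by
    intro P hP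
    obtain ⟨h2, h2m, h2d⟩ := hSp P hP
    refine ⟨h2, h2m, fun h1 => ?_, h2d⟩
    have h3 := h2.associated_of_dvd hirrK h1
    have h4 := eq_of_monic_of_associated h2m hg.monic h3
    apply hS0 P hP
    apply (algebraMap N Ω).injective
    rw [← aeval_algebraMap_apply, hθ, map_zero, h4]
    exact ha
  obtain ⟨m', R0, R', -, -, h⟩ := torK2 H hg hirrK ha hθ hNtop hmul hg2 ht hz hk hz0 hu hg0 hSp' hze1
  exact ⟨R0 + R', h⟩

end torK

end Pool.Agent.Y160.SH
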